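import Pool.Agent.R612.SU.Main
import Pool.Agent.R612.SU.TH
import Pool.Agent.R825.SU.SL
import Pool.Agent.H724.SU.DG
import Pool.Agent.R612.SU.DF
import Pool.Agent.R612.SU.SUM
import Pool.Agent.R906.SU.OV
import Pool.Agent.R612.SU.DK
import Pool.Agent.R906.SU.DU
import Pool.Agent.R612.SU.UN
import Pool.Agent.R612.SU.DI
import Pool.Agent.R825.SU.NE
import Pool.Agent.R612.SU.IS

/-!
# MP_ae4adf_co: no surround count forces three prototiles to tile

For every `k` there is a set of three pairwise non-congruent prototiles which admits no tiling of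
the plane although every single tile can be surrounded `k` times. Hence there is no function `f`
as in Q1.

Construction: `Pool/Agent/R612/SU/Defs.lean`; proof outline: `Pool/Agent/R612/SU/notes.md`.
-/

open Pool.Agent.R612.SU

namespace Pool.Agent.Results.MP_ae4adf_co.NoSurroundCount

theorem result :
    (∀ k : ℕ, ∃ S : Set (Set ℂ), S.ncard = 3 ∧ (∀ P ∈ S, IsDisk P) ∧
      (∀ P ∈ S, ∀ Q ∈ S, ∀ g : ℂ ≃ᵢ ℂ, Q = g '' P → Q = P) ∧ ¬ Tiles S ∧
      (∃ F, IsPatch S F ∧ F.ncard = 1) ∧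
      ∀ F, IsPatch S F → F.ncard = 1 → CanSurround S F k) ∧
    ¬ ∃ f : ℕ → ℕ → ℕ, ∀ n m : ℕ, 0 < n → 0 < m → ∀ S : Set (Set ℂ), S.ncard = n →
      (∀ P ∈ S, IsDisk P) → (∃ F, IsPatch S F ∧ F.ncard = m) →
      (∀ F, IsPatch S F → F.ncard = m → CanSurround S F (f n m)) → Tiles S := by
  have h1 := main TH.stTH (Pool.Agent.H724.SU.stDG Pool.Agent.R825.SU.stSL)
    (stDF Pool.Agent.R825.SU.stSL) SUM.stSUM Pool.Agent.R906.SU.stOV DK.stDK
    Pool.Agent.R906.SU.stDU UN.stUN DI.stDI Pool.Agent.R825.SU.stNE stIS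
  refine ⟨h1, ?_⟩
  rintro ⟨f, hf⟩
  obtain ⟨S, a1, a2, -, a4, a5, a6⟩ := h1 (f 3 1)
  exact a4 (hf 3 1 (by norm_num) (by norm_num) S a1 a2 a5 a6)

end Pool.Agent.Results.MP_ae4adf_co.NoSurroundCount
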